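import Pool.Agent.TH649.SF.Prim

/-! An embedding of the field of algebraic numbers in the algebraic closure of `ℚ_p` for which
given algebraic numbers go to `ℤ_p`. -/

set_option autoImplicit false

open Polynomial

namespace Pool.Agent.TH649.SF

/-- values of a nonconstant monic integral polynomial are divisible by primes outside any given
finite set -/
lemma exists_prime_root (g : ℤ[X]) (hd : 0 < g.natDegree) (N : ℕ) (hN : N ≠ 0) :
    ∃ q : ℕ, q.Prime ∧ ¬ q ∣ N ∧ ∃ r : ZMod q, aeval r g = 0 := by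
  by_cases hc : g.eval 0 = 0
  · obtain ⟨q, hq, hqp⟩ := Nat.exists_infinite_primes (N + 1)
    refine ⟨q, hqp, fun h => ?_, 0, ?_⟩
    · have := Nat.le_of_dvd (Nat.pos_of_ne_zero hN) h
      omega
    · have h1 : aeval (algebraMap ℤ (ZMod q) 0) g = 0 := by
        rw [aeval_algebraMap_apply, aeval_def, Algebra.algebraMap_self, eval₂_id, hc, map_zero]
      rwa [map_zero] at h1
  · set c := g.eval 0 with hcdef
    -- a value different from `± c`
    set Hh : ℤ[X] := (g - C c) * (g + C c) with hH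
    have hH0 : Hh ≠ 0 := by
      apply mul_ne_zero
      · intro h
        have : g = C c := sub_eq_zero.1 h
        rw [this, natDegree_C] at hd
        omega
      · intro h
        have : g = C (-c) := by rw [C_neg]; exact eq_neg_of_add_eq_zero_left h
        rw [this, natDegree_C] at hd
        omega
    have hfin : (Hh.rootSet ℤ).Finite := Hh.rootSet_finite ℤ
    have hinj : Function.Injective (fun x : ℕ => c * N * (x : ℤ)) := by
      intro x y hxy
      have hcN : c * (N : ℤ) ≠ 0 := mul_ne_zero hc (by exact_mod_cast hN)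
      exact_mod_cast mul_left_cancel₀ hcN hxy
    obtain ⟨x, hx⟩ := ((hfin.preimage hinj.injOn).infinite_compl).nonempty
    have hx' : Hh.eval (c * N * (x : ℤ)) ≠ 0 := by
      intro h
      apply hx
      rw [Set.mem_preimage, mem_rootSet]
      exact ⟨hH0, by simpa using h⟩
    set y := c * N * (x : ℤ) with hy
    obtain ⟨k, hk⟩ : y - 0 ∣ g.eval y - g.eval 0 := sub_dvd_eval_sub y 0 g
    rw [sub_zero] at hk
    have h1 : g.eval y = c * (1 + N * (x * k)) := by
      rw [← hcdef] at hk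
      rw [hy] at hk ⊢
      linear_combination hk
    have h2 : 1 + (N : ℤ) * (x * k) ≠ 1 := by
      intro h
      apply hx'
      rw [hH, eval_mul, eval_sub, h1, h]
      simp
    have h3 : 1 + (N : ℤ) * (x * k) ≠ -1 := by
      intro h
      apply hx'
      rw [hH, eval_mul, eval_add, h1, h]
      simp
    have h4 : (1 + (N : ℤ) * (x * k)).natAbs ≠ 1 := by
      intro h
      rcases Int.natAbs_eq_iff.1 h with h | h
      · exact h2 (by simpa using h)
      · exact h3 (by simpa using h)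
    obtain ⟨q, hq, hqd⟩ := Nat.exists_prime_and_dvd h4
    have hqd' : (q : ℤ) ∣ 1 + (N : ℤ) * (x * k) := Int.natCast_dvd.2 hqd
    refine ⟨q, hq, fun h => ?_, (y : ZMod q), ?_⟩
    · have h5 : (q : ℤ) ∣ (N : ℤ) * (x * k) := Dvd.dvd.mul_right (by exact_mod_cast h) _
      have h6 : (q : ℤ) ∣ 1 := (Int.dvd_add_left h5).1 hqd'
      have h7 : q ∣ 1 := by exact_mod_cast h6
      exact hq.one_lt.ne' (Nat.dvd_one.1 h7)
    · have h5 : aeval ((y : ℤ) : ZMod q) g = ((g.eval y : ℤ) : ZMod q) := by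
        have := aeval_algebraMap_apply (ZMod q) y g
        rw [eq_intCast, eq_intCast] at this
        rw [this]; simp
      rw [h5, ZMod.intCast_zmod_eq_zero_iff_dvd, h1]
      exact Dvd.dvd.mul_left hqd' _


/-- the inclusion of `ℤ_p` in the algebraic closure of `ℚ_p` -/
noncomputable def io (p : ℕ) [Fact p.Prime] : ℤ_[p] →+* AlgebraicClosure ℚ_[p] :=
  (algebraMap ℚ_[p] (AlgebraicClosure ℚ_[p])).comp (algebraMap ℤ_[p] ℚ_[p])

theorem io_inj (p : ℕ) [Fact p.Prime] : Function.Injective (io p) := by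
  intro x y h
  exact IsFractionRing.injective ℤ_[p] ℚ_[p] ((algebraMap ℚ_[p] (AlgebraicClosure ℚ_[p])).injective h)

/-- embedding lemma -/
theorem exists_emb (X : Finset (AlgebraicClosure ℚ)) :
    ∃ (p : ℕ) (_ : Fact p.Prime) (τ : AlgebraicClosure ℚ →+* AlgebraicClosure ℚ_[p]),
      ∀ x ∈ X, ∃ z : ℤ_[p], τ x = io p z := by
  classical
  have halgQ : Algebra.IsAlgebraic ℚ (AlgebraicClosure ℚ) := AlgebraicClosure.isAlgebraic ℚ
  have halgZ : Algebra.IsAlgebraic ℤ (AlgebraicClosure ℚ) :=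
    (IsFractionRing.comap_isAlgebraic_iff (A := ℤ) (K := ℚ)).2 halgQ
  have hmult : ∀ x : AlgebraicClosure ℚ, ∃ N : ℤ, N ≠ 0 ∧ IsIntegral ℤ (N • x) := fun x =>
    (Algebra.IsAlgebraic.isAlgebraic (R := ℤ) x).exists_integral_multiple
  choose N hN0 hN using hmult
  let A : Subalgebra ℤ (AlgebraicClosure ℚ) :=
    Algebra.adjoin ℤ ((fun x => N x • x) '' (X : Set (AlgebraicClosure ℚ)))
  have hfin : Module.Finite ℤ A := by
    have h1 : (Subalgebra.toSubmodule A).FG :=
      fg_adjoin_of_finite (X.finite_toSet.image _) (by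
        rintro _ ⟨x, -, rfl⟩
        exact hN x)
    exact Module.Finite.iff_fg.2 h1
  have hintA : Algebra.IsIntegral ℤ A := Algebra.IsIntegral.of_finite ℤ A
  obtain ⟨θ, hθ⟩ := exists_prim (P := ℤ) (A := A)
  obtain ⟨d, w, hd0, hdw⟩ := exists_disc (P := ℤ) θ
  obtain ⟨sw, V, hsw0, hV⟩ := hθ w
  have hgen : ∀ x : X, ∃ (s : ℤ) (Q : ℤ[X]), s ≠ 0 ∧
      (s : AlgebraicClosure ℚ) * x = aeval (θ : AlgebraicClosure ℚ) Q := by
    intro x
    obtain ⟨s, Q, hs, hQ⟩ := hθ ⟨N x • (x : AlgebraicClosure ℚ),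
      Algebra.subset_adjoin ⟨x, x.2, rfl⟩⟩
    refine ⟨s * N x, Q, mul_ne_zero hs (hN0 _), ?_⟩
    have h1 := congrArg (fun y : A => (y : AlgebraicClosure ℚ)) hQ
    have h2 : ((aeval θ Q : A) : AlgebraicClosure ℚ) = aeval (θ : AlgebraicClosure ℚ) Q :=
      (aeval_algebraMap_apply (AlgebraicClosure ℚ) θ Q).symm
    simp only [h2] at h1
    rw [← h1]
    push_cast
    rw [zsmul_eq_mul]
    simp
    ring
  choose s Q hs0 hQ using hgen
  set M := minpoly ℤ θ with hM
  have hint : IsIntegral ℤ θ := Algebra.IsIntegral.isIntegral θ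
  obtain ⟨q, hq, hqN, r, hr⟩ := exists_prime_root M (minpoly.natDegree_pos hint)
    (sw * d * ∏ x : X, s x).natAbs (by
      rw [Int.natAbs_ne_zero]
      exact mul_ne_zero (mul_ne_zero hsw0 hd0) (Finset.prod_ne_zero_iff.2 fun x _ => hs0 x))
  have hqN' : ¬ (q : ℤ) ∣ sw * d * ∏ x : X, s x := fun h => hqN (Int.natCast_dvd.1 h)
  have hfact : Fact q.Prime := ⟨hq⟩
  -- the derivative does not vanish at `r`
  have hder : aeval r (derivative M) ≠ 0 := by
    have h1 : aeval θ (derivative M * V - C (sw * d)) = 0 := by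
      rw [map_sub, map_mul, ← hV, aeval_C, map_mul, hdw]
      ring
    obtain ⟨U, hU⟩ := minpoly.isIntegrallyClosed_dvd hint h1
    rw [← hM] at hU
    have h2 := congrArg (aeval r) hU
    rw [map_sub, map_mul, map_mul (aeval r) M, hr, zero_mul, aeval_C] at h2
    intro h3
    rw [h3, zero_mul, zero_sub, neg_eq_zero] at h2
    rw [eq_intCast, ZMod.intCast_zmod_eq_zero_iff_dvd] at h2
    exact hqN' (h2.mul_right _)
  -- Hensel
  obtain ⟨a, ha⟩ : ∃ a : ℤ_[q], PadicInt.toZMod a = r :=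
    ⟨(r.val : ℤ_[q]), by rw [map_natCast, ZMod.natCast_zmod_val]⟩
  have hred : ∀ R : ℤ[X], PadicInt.toZMod (aeval a R) = aeval r R := by
    intro R
    rw [← ha]
    exact (aeval_algHom_apply (PadicInt.toZMod (p := q)).toIntAlgHom a R).symm
  have hlt : ∀ y : ℤ_[q], PadicInt.toZMod y = 0 ↔ ‖y‖ < 1 := by
    intro y
    rw [← RingHom.mem_ker, PadicInt.ker_toZMod, IsLocalRing.mem_maximalIdeal, PadicInt.mem_nonunits]
  have hn1 : ‖aeval a M‖ < 1 := by rw [← hlt, hred, hr]
  have hn2 : ‖aeval a (derivative M)‖ = 1 := by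
    refine le_antisymm (PadicInt.norm_le_one _) (not_lt.1 ?_)
    rw [← hlt, hred]
    exact hder
  obtain ⟨z, hz, -⟩ := hensels_lemma (F := M) (a := a) (by rw [hn2, one_pow]; exact hn1)
  -- extension to the integral closure
  let S : Subalgebra ℤ (AlgebraicClosure ℚ) := integralClosure ℤ (AlgebraicClosure ℚ)
  have hθk : IsIntegral ℤ (θ : AlgebraicClosure ℚ) := hint.map (Subalgebra.val A)
  let θ' : S := ⟨θ, hθk⟩
  have hmin : minpoly ℤ θ' = M := by
    rw [hM, ← minpoly.algebraMap_eq (B' := AlgebraicClosure ℚ) (Subtype.val_injective) θ',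
      ← minpoly.algebraMap_eq (B' := AlgebraicClosure ℚ) (Subtype.val_injective) θ]
    rfl
  obtain ⟨h, hh, hhθ⟩ := exists_hom_root (P := ℤ) θ' (Int.castRingHom (AlgebraicClosure ℚ_[q]))
    (io q z) (by
      rw [hmin]
      have h1 := congrArg (io q) hz
      rw [map_zero, aeval_def, hom_eval₂] at h1
      rw [← h1]
      congr 1)
  have hinjh : Function.Injective h := by
    rw [RingHom.injective_iff_ker_eq_bot]
    apply Ideal.eq_bot_of_comap_eq_bot (R := ℤ)
    rw [eq_bot_iff]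
    intro n hn
    rw [Ideal.mem_comap, RingHom.mem_ker, hh] at hn
    simpa using hn
  have hfrac : IsFractionRing S (AlgebraicClosure ℚ) :=
    integralClosure.isFractionRing_of_algebraic (fun x hx => by simpa using hx)
  let τ : AlgebraicClosure ℚ →+* AlgebraicClosure ℚ_[q] := IsFractionRing.lift hinjh
  have hτ : ∀ y : S, τ (y : AlgebraicClosure ℚ) = h y := fun y => IsFractionRing.lift_algebraMap hinjh y
  have hτθ : τ (θ : AlgebraicClosure ℚ) = io q z := by
    rw [← hhθ, ← hτ θ']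
  refine ⟨q, hfact, τ, fun x hx => ?_⟩
  have h1 := congrArg τ (hQ ⟨x, hx⟩)
  rw [map_mul, map_intCast] at h1
  have h2 : τ (aeval (θ : AlgebraicClosure ℚ) (Q ⟨x, hx⟩)) = io q (aeval z (Q ⟨x, hx⟩)) := by
    have e1 := (aeval_algHom_apply τ.toIntAlgHom (θ : AlgebraicClosure ℚ) (Q ⟨x, hx⟩))
    have e2 := (aeval_algHom_apply (io q).toIntAlgHom z (Q ⟨x, hx⟩))
    have e3 : τ.toIntAlgHom (θ : AlgebraicClosure ℚ) = (io q).toIntAlgHom z := hτθ
    rw [e3] at e1
    exact e1.symm.trans e2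
  rw [h2] at h1
  have hunit : IsUnit ((s ⟨x, hx⟩ : ℤ) : ℤ_[q]) := by
    rw [PadicInt.isUnit_iff]
    refine le_antisymm (PadicInt.norm_le_one _) (not_lt.1 ?_)
    rw [PadicInt.norm_int_lt_one_iff_dvd]
    intro h3
    exact hqN' ((h3.trans (Finset.dvd_prod_of_mem s (Finset.mem_univ _))).mul_left _)
  obtain ⟨u, hu⟩ := hunit
  refine ⟨(↑u⁻¹ : ℤ_[q]) * aeval z (Q ⟨x, hx⟩), ?_⟩
  rw [map_mul, ← h1, ← map_intCast (io q), ← mul_assoc, ← map_mul, ← hu, Units.inv_mul, map_one,
    one_mul]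

end Pool.Agent.TH649.SF
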