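import Mathlib

/-! Extension of ring homomorphisms to an algebraically closed field along integral extensions. -/

set_option autoImplicit false

namespace Pool.Agent.TH649.SF

/-- a homomorphism to an algebraically closed field extends along an integral extension -/
theorem ext_hom {B A Ω : Type*} [CommRing B] [CommRing A] [Field Ω] [IsAlgClosed Ω] [Algebra B A]
    [Algebra.IsIntegral B A] (hinj : Function.Injective (algebraMap B A)) (φ : B →+* Ω) :
    ∃ h : A →+* Ω, ∀ b, h (algebraMap B A b) = φ b := by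
  have hker : (RingHom.ker φ).IsPrime := RingHom.ker_isPrime φ
  obtain ⟨Q, -, hQ, hQc⟩ := Ideal.exists_ideal_over_prime_of_isIntegral (RingHom.ker φ)
    (⊥ : Ideal A) (by
      intro b hb
      rw [Ideal.mem_comap, Ideal.mem_bot] at hb
      have : b = 0 := hinj (by rw [hb, map_zero])
      rw [this]
      exact Ideal.zero_mem _)
  -- the quotient domains
  let i : B ⧸ RingHom.ker φ →+* A ⧸ Q := Ideal.quotientMap Q (algebraMap B A) hQc.ge
  have hi : Function.Injective i := Ideal.quotientMap_injective' hQc.le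
  let ψ : B ⧸ RingHom.ker φ →+* Ω := RingHom.kerLift φ
  have hψ : Function.Injective ψ := RingHom.kerLift_injective φ
  let _ : Algebra (B ⧸ RingHom.ker φ) (A ⧸ Q) := i.toAlgebra
  let _ : Algebra (B ⧸ RingHom.ker φ) Ω := ψ.toAlgebra
  have hint : Algebra.IsIntegral (B ⧸ RingHom.ker φ) (A ⧸ Q) := by
    constructor
    intro x
    obtain ⟨a, rfl⟩ := Ideal.Quotient.mk_surjective x
    obtain ⟨P, hP, hPa⟩ := Algebra.IsIntegral.isIntegral (R := B) a
    refine ⟨P.map (Ideal.Quotient.mk _), hP.map _, ?_⟩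
    rw [Polynomial.eval₂_map]
    have : (algebraMap (B ⧸ RingHom.ker φ) (A ⧸ Q)).comp (Ideal.Quotient.mk (RingHom.ker φ))
        = (Ideal.Quotient.mk Q).comp (algebraMap B A) := by
      ext b
      rfl
    rw [this, ← Polynomial.hom_eval₂, hPa, map_zero]
  have : Module.IsTorsionFree (B ⧸ RingHom.ker φ) (A ⧸ Q) := by
    rw [Module.isTorsionFree_iff_algebraMap_injective]
    exact hi
  have : Module.IsTorsionFree (B ⧸ RingHom.ker φ) Ω := by
    rw [Module.isTorsionFree_iff_algebraMap_injective]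
    exact hψ
  let g : (A ⧸ Q) →ₐ[B ⧸ RingHom.ker φ] Ω := IsAlgClosed.lift
  refine ⟨(g : (A ⧸ Q) →+* Ω).comp (Ideal.Quotient.mk Q), fun b => ?_⟩
  have h1 : (Ideal.Quotient.mk Q) (algebraMap B A b)
      = algebraMap (B ⧸ RingHom.ker φ) (A ⧸ Q) (Ideal.Quotient.mk _ b) := rfl
  rw [RingHom.comp_apply, h1]
  exact g.commutes _

end Pool.Agent.TH649.SF
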