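import Mathlib

/-! A family of roots given by Hensel's lemma. -/

set_option autoImplicit false

open Polynomial

namespace Pool.Agent.TH649.SF

section

variable {p : ℕ} [Fact p.Prime]

/-- the ideal of elements of norm at most `r` -/
noncomputable def ball (p : ℕ) [Fact p.Prime] (r : ℝ) (hr : 0 ≤ r) : Ideal ℤ_[p] where
  carrier := {y | ‖y‖ ≤ r}
  add_mem' := by
    intro a b ha hb
    exact (PadicInt.nonarchimedean a b).trans (max_le ha hb)
  zero_mem' := by simpa using hr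
  smul_mem' := by
    intro c x hx
    have h1 := PadicInt.norm_le_one c
    have h2 : ‖x‖ ≤ r := hx
    show ‖c * x‖ ≤ r
    rw [norm_mul]
    have := norm_nonneg x
    nlinarith [norm_nonneg c]

theorem mem_ball {r : ℝ} {hr : 0 ≤ r} {y : ℤ_[p]} : y ∈ ball p r hr ↔ ‖y‖ ≤ r := Iff.rfl

/-- evaluation of a polynomial in `m + 1` variables -/
noncomputable def E {R : Type*} [CommRing R] {m : ℕ} (t : Fin m → R) (x : R) :
    (MvPolynomial (Fin m) R)[X] →+* R :=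
  Polynomial.eval₂RingHom (MvPolynomial.eval t) x

theorem E_map {R : Type*} [CommRing R] {m : ℕ} (t : Fin m → R) (x : R)
    (Q : (MvPolynomial (Fin m) R)[X]) : (Q.map (MvPolynomial.eval t)).eval x = E t x Q := by
  rw [E, coe_eval₂RingHom, eval_map]

variable {m : ℕ}

theorem E_congr (I : Ideal ℤ_[p]) {t t' : Fin m → ℤ_[p]} {x x' : ℤ_[p]}
    (ht : ∀ i, t i - t' i ∈ I) (hx : x - x' ∈ I) (Q : (MvPolynomial (Fin m) ℤ_[p])[X]) :
    E t x Q - E t' x' Q ∈ I := by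
  have h : (Ideal.Quotient.mk I).comp (E t x) = (Ideal.Quotient.mk I).comp (E t' x') := by
    apply Polynomial.ringHom_ext'
    · apply MvPolynomial.ringHom_ext
      · intro r
        simp [E]
      · intro i
        simp only [E, RingHom.comp_apply, coe_eval₂RingHom, eval₂_C, MvPolynomial.eval_X]
        exact Ideal.Quotient.eq.2 (ht i)
    · simp only [E, RingHom.comp_apply, coe_eval₂RingHom, eval₂_X]
      exact Ideal.Quotient.eq.2 hx
  exact Ideal.Quotient.eq.1 (congrArg (fun f => f Q) h)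

theorem norm_one_of_sub {x y : ℤ_[p]} (h : ‖x - y‖ < 1) (hy : ‖y‖ = 1) : ‖x‖ = 1 := by
  refine le_antisymm (PadicInt.norm_le_one x) ?_
  by_contra hx
  push Not at hx
  have h1 : ‖y‖ ≤ max ‖x‖ ‖-(x - y)‖ := by
    have := PadicInt.nonarchimedean x (-(x - y))
    rwa [show x + -(x - y) = y by ring] at this
  rw [norm_neg, hy] at h1
  exact absurd h1 (not_le.2 (max_lt hx h))

theorem eval_sub_norm {F : ℤ_[p][X]} {x y : ℤ_[p]} (hxy : ‖x - y‖ < 1)
    (hy : ‖(derivative F).eval y‖ = 1) : ‖F.eval x - F.eval y‖ = ‖x - y‖ := by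
  obtain ⟨k, hk⟩ := Polynomial.binomExpansion F y (x - y)
  rw [add_sub_cancel] at hk
  have h1 : F.eval x - F.eval y = ((derivative F).eval y + k * (x - y)) * (x - y) := by
    rw [hk]; ring
  have h2 : ‖(derivative F).eval y + k * (x - y)‖ = 1 := by
    refine norm_one_of_sub ?_ hy
    rw [add_sub_cancel_left, norm_mul]
    have := PadicInt.norm_le_one k
    nlinarith [norm_nonneg (x - y), norm_nonneg k]
  rw [h1, norm_mul, h2, one_mul]

/-- the point `a + p ^ 2 β` -/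
noncomputable def tt (a : Fin m → ℤ_[p]) (β : Fin m → ℤ_[p]) : Fin m → ℤ_[p] :=
  fun i => a i + (p : ℤ_[p]) ^ 2 * β i

theorem norm_tt_sub (a β β' : Fin m → ℤ_[p]) (i : Fin m) :
    ‖tt a β i - tt a β' i‖ = (p : ℝ) ^ (-2 : ℤ) * ‖β i - β' i‖ := by
  have : tt a β i - tt a β' i = (p : ℤ_[p]) ^ 2 * (β i - β' i) := by
    simp only [tt]; ring
  rw [this, norm_mul, PadicInt.norm_p_pow]
  norm_num

theorem norm_tt_sub_a (a β : Fin m → ℤ_[p]) (i : Fin m) :
    ‖tt a β i - a i‖ ≤ (p : ℝ) ^ (-2 : ℤ) := by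
  have h := norm_tt_sub a β 0 i
  have h0 : tt a 0 i = a i := by simp [tt]
  rw [h0] at h
  rw [h]
  have h1 := PadicInt.norm_le_one (β i - (0 : Fin m → ℤ_[p]) i)
  have h2 : (0 : ℝ) ≤ (p : ℝ) ^ (-2 : ℤ) := by positivity
  nlinarith

theorem pneg_lt : (p : ℝ) ^ (-2 : ℤ) < 1 := by
  have hp : (1 : ℝ) < p := by exact_mod_cast (Fact.out : p.Prime).one_lt
  exact zpow_lt_one_of_neg₀ hp (by norm_num)

theorem hensel_family (M : (MvPolynomial (Fin m) ℤ_[p])[X]) (a : Fin m → ℤ_[p]) (θ₀ : ℤ_[p])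
    (h0 : E a θ₀ M = 0) (h1 : ‖E a θ₀ (derivative M)‖ = 1) :
    ∃ Θ : (Fin m → ℤ_[p]) → ℤ_[p], (∀ β, E (tt a β) (Θ β) M = 0) ∧ (∀ β, ‖Θ β - θ₀‖ < 1) ∧
      ∀ β β' (r : ℝ), 0 ≤ r → (∀ i, ‖β i - β' i‖ ≤ r) →
        ‖Θ β - Θ β'‖ ≤ (p : ℝ) ^ (-2 : ℤ) * r := by
  have hp0 : (0 : ℝ) ≤ (p : ℝ) ^ (-2 : ℤ) := by positivity
  have hp1 := pneg_lt (p := p)
  -- the derivative at any nearby point is a unit
  have hder : ∀ β x, ‖x - θ₀‖ < 1 → ‖E (tt a β) x (derivative M)‖ = 1 := by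
    intro β x hx
    refine norm_one_of_sub ?_ h1
    have h2 : E (tt a β) x (derivative M) - E a θ₀ (derivative M)
        ∈ ball p (max ((p : ℝ) ^ (-2 : ℤ)) ‖x - θ₀‖) (le_max_of_le_left hp0) :=
      E_congr _ (fun i => (norm_tt_sub_a a β i).trans (le_max_left _ _))
        (mem_ball.2 (le_max_right _ _)) _
    exact lt_of_le_of_lt h2 (max_lt hp1 hx)
  have hroot : ∀ β, ∃ z, E (tt a β) z M = 0 ∧ ‖z - θ₀‖ < 1 := by
    intro β
    have h2 : ‖E (tt a β) θ₀ M‖ < 1 := by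
      have h3 : E (tt a β) θ₀ M - E a θ₀ M ∈ ball p ((p : ℝ) ^ (-2 : ℤ)) hp0 :=
        E_congr _ (fun i => norm_tt_sub_a a β i) (by simp) _
      rw [h0, sub_zero] at h3
      exact lt_of_le_of_lt h3 hp1
    have h3 : ‖E (tt a β) θ₀ (derivative M)‖ = 1 := hder β θ₀ (by simp)
    have e1 : aeval θ₀ (M.map (MvPolynomial.eval (tt a β))) = E (tt a β) θ₀ M := by
      rw [coe_aeval_eq_eval, E_map]
    have e2 : aeval θ₀ (derivative (M.map (MvPolynomial.eval (tt a β))))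
        = E (tt a β) θ₀ (derivative M) := by
      rw [coe_aeval_eq_eval, derivative_map, E_map]
    obtain ⟨z, hz, hz1, -⟩ := hensels_lemma (F := M.map (MvPolynomial.eval (tt a β))) (a := θ₀)
      (by rw [e1, e2, h3, one_pow]; exact h2)
    refine ⟨z, ?_, ?_⟩
    · rw [coe_aeval_eq_eval, E_map] at hz
      exact hz
    · rwa [e2, h3] at hz1
  choose Θ hΘ hΘ1 using hroot
  refine ⟨Θ, hΘ, hΘ1, fun β β' r hr h => ?_⟩
  have hsub : ‖Θ β - Θ β'‖ < 1 := by
    have : Θ β - Θ β' = (Θ β - θ₀) + -(Θ β' - θ₀) := by ring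
    rw [this]
    refine lt_of_le_of_lt (PadicInt.nonarchimedean _ _) (max_lt (hΘ1 β) ?_)
    rw [norm_neg]
    exact hΘ1 β'
  have h2 := eval_sub_norm (F := M.map (MvPolynomial.eval (tt a β))) hsub (by
    rw [derivative_map, E_map]
    exact hder β _ (hΘ1 β'))
  rw [← h2, E_map, E_map, hΘ, zero_sub, norm_neg]
  have h3 : E (tt a β) (Θ β') M - E (tt a β') (Θ β') M
      ∈ ball p ((p : ℝ) ^ (-2 : ℤ) * r) (mul_nonneg hp0 hr) :=
    E_congr _ (fun i => by
      rw [mem_ball, norm_tt_sub]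
      exact mul_le_mul_of_nonneg_left (h i) hp0) (by simp) _
  rw [hΘ, sub_zero] at h3
  exact h3

end

end Pool.Agent.TH649.SF
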