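import Pool.Agent.TH649.SF.Emb
import Pool.Agent.TH649.SF.Hens

/-! The family of points: auxiliary lemmas. -/

set_option autoImplicit false

open Polynomial

namespace Pool.Agent.TH649.SF

section

variable {p : ℕ} [Fact p.Prime] {m : ℕ} {k : Type} [Field k]

/-- the algebraic closure of `ℚ_p` -/
abbrev Om (p : ℕ) [Fact p.Prime] : Type := AlgebraicClosure ℚ_[p]

/-- coefficients of a polynomial in `m + 1` variables -/
noncomputable def cf (Q : (MvPolynomial (Fin m) k)[X]) : Finset k :=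
  open Classical in Q.coeffs.biUnion fun c => c.coeffs

theorem lift_mv (τ : k →+* Om p) (c : MvPolynomial (Fin m) k)
    (h : ∀ x ∈ c.coeffs, ∃ z : ℤ_[p], τ x = io p z) :
    ∃ c' : MvPolynomial (Fin m) ℤ_[p], MvPolynomial.map (io p) c' = MvPolynomial.map τ c := by
  have : MvPolynomial.map τ c ∈ Set.range (MvPolynomial.map (σ := Fin m) (io p)) := by
    rw [MvPolynomial.mem_range_map_iff_coeffs_subset]
    intro y hy
    rw [Finset.mem_coe, MvPolynomial.mem_coeffs_iff] at hy
    obtain ⟨n, hn, rfl⟩ := hy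
    rw [MvPolynomial.coeff_map]
    rw [MvPolynomial.mem_support_iff, MvPolynomial.coeff_map] at hn
    have hn' : n ∈ c.support := by
      rw [MvPolynomial.mem_support_iff]
      intro h0
      rw [h0, map_zero] at hn
      exact hn rfl
    obtain ⟨z, hz⟩ := h (c.coeff n) (MvPolynomial.mem_coeffs_iff.2 ⟨n, hn', rfl⟩)
    exact ⟨z, hz.symm⟩
  exact this

theorem lift_poly (τ : k →+* Om p) (Q : (MvPolynomial (Fin m) k)[X])
    (h : ∀ x ∈ cf Q, ∃ z : ℤ_[p], τ x = io p z) :
    ∃ Q' : (MvPolynomial (Fin m) ℤ_[p])[X],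
      Q'.map (MvPolynomial.map (io p)) = Q.map (MvPolynomial.map τ) := by
  classical
  rw [← Polynomial.mem_lifts, Polynomial.lifts_iff_coeff_lifts]
  intro n
  rw [coeff_map]
  by_cases h0 : Q.coeff n = 0
  · rw [h0, map_zero]
    exact ⟨0, map_zero _⟩
  · obtain ⟨c', hc'⟩ := lift_mv τ (Q.coeff n) (fun x hx => h x (by
      rw [cf]
      refine Finset.mem_biUnion.2 ⟨Q.coeff n, ?_, hx⟩
      exact Polynomial.mem_coeffs_iff.2 ⟨n, mem_support_iff.2 h0, rfl⟩))
    exact ⟨c', hc'⟩

theorem E_hom {R S : Type*} [CommRing R] [CommRing S] (f : R →+* S) (t : Fin m → R) (x : R)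
    (Q : (MvPolynomial (Fin m) R)[X]) :
    f (E t x Q) = E (f ∘ t) (f x) (Q.map (MvPolynomial.map f)) := by
  have h : f.comp (E t x) = (E (f ∘ t) (f x)).comp (mapRingHom (MvPolynomial.map f)) := by
    apply Polynomial.ringHom_ext'
    · apply MvPolynomial.ringHom_ext
      · intro r
        simp [E]
      · intro i
        simp [E]
    · simp [E]
  exact congrArg (fun g => g Q) h

theorem E_C {R : Type*} [CommRing R] (t : Fin m → R) (x : R) (c : MvPolynomial (Fin m) R) :
    E t x (C c) = MvPolynomial.eval t c := by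
  simp [E]

/-- `E` for polynomials over `k`, evaluated in the algebraic closure of `ℚ_p` -/
theorem E_eval₂ (τ : k →+* Om p) (t : Fin m → Om p) (x : Om p) (Q : (MvPolynomial (Fin m) k)[X]) :
    Q.eval₂ ((MvPolynomial.eval t).comp (MvPolynomial.map τ)) x
      = E t x (Q.map (MvPolynomial.map τ)) := by
  rw [E, coe_eval₂RingHom, eval₂_map]

theorem ball_infinite (x : ℤ_[p]) {ε : ℝ} (hε : 0 < ε) : (Metric.ball x ε).Infinite := by
  have hp : (1 : ℝ) < p := by exact_mod_cast (Fact.out : p.Prime).one_lt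
  obtain ⟨N, hN⟩ : ∃ N : ℕ, ((p : ℝ)⁻¹) ^ N < ε :=
    exists_pow_lt_of_lt_one hε (inv_lt_one_of_one_lt₀ hp)
  have hinj : Function.Injective (fun n : ℕ => x + (p : ℤ_[p]) ^ (n + N)) := by
    intro a b hab
    have h1 : (p : ℤ_[p]) ^ (a + N) = (p : ℤ_[p]) ^ (b + N) := add_left_cancel hab
    have h2 := congrArg (fun y : ℤ_[p] => ‖y‖) h1
    simp only [PadicInt.norm_p_pow] at h2
    have h3 := zpow_right_injective₀ (by linarith) hp.ne' h2
    omega
  refine (Set.infinite_range_of_injective hinj).mono ?_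
  rintro _ ⟨n, rfl⟩
  rw [Metric.mem_ball, dist_eq_norm, add_sub_cancel_left, PadicInt.norm_p_pow]
  refine lt_of_le_of_lt ?_ hN
  rw [zpow_neg, zpow_natCast, ← inv_pow]
  exact pow_le_pow_of_le_one (by positivity) (inv_le_one_of_one_le₀ hp.le) (by omega)

end

end Pool.Agent.TH649.SF
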