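import Pool.Agent.TH649.SF.Ext

/-! Primitive elements of finite extensions of domains, and homomorphisms. -/

set_option autoImplicit false

open Polynomial

namespace Pool.Agent.TH649.SF

section

variable {P A : Type} [CommRing P] [IsDomain P] [CommRing A] [IsDomain A] [Algebra P A]
  [Module.IsTorsionFree P A] [Algebra.IsIntegral P A]

omit [Module.IsTorsionFree P A] in
theorem exists_dvd (a : A) (ha : a ≠ 0) : ∃ s : P, s ≠ 0 ∧ ∃ b : A, algebraMap P A s = a * b := by
  have h := Ideal.comap_ne_bot_of_integral_mem (R := P) ha (Ideal.mem_span_singleton_self a)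
    (Algebra.IsIntegral.isIntegral a)
  obtain ⟨s, hs, hs0⟩ := Submodule.exists_mem_ne_zero_of_ne_bot h
  rw [Ideal.mem_comap, Ideal.mem_span_singleton] at hs
  obtain ⟨b, hb⟩ := hs
  exact ⟨s, hs0, b, hb⟩

/-- a primitive element in the ring itself -/
theorem exists_prim_aux [CharZero P] [Module.Finite P A] (E K : Type) [Field E] [Field K]
    [Algebra P E] [IsFractionRing P E] [Algebra A K] [IsFractionRing A K] [Algebra P K]
    [IsScalarTower P A K] [Algebra E K] [IsScalarTower P E K] :
    ∃ θ : A, ∀ a : A, ∃ (s : P) (Q : P[X]), s ≠ 0 ∧ algebraMap P A s * a = aeval θ Q := by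
  have hinj : Function.Injective (algebraMap P A) := FaithfulSMul.algebraMap_injective P A
  have hinjK : Function.Injective (algebraMap A K) := IsFractionRing.injective A K
  have hfin : Module.Finite E K := by
    have hloc : IsLocalization (Algebra.algebraMapSubmonoid A (nonZeroDivisors P)) K := by
      refine (IsLocalization.iff_of_le_of_exists_dvd _ (nonZeroDivisors A) ?_ ?_).2 inferInstance
      · rintro _ ⟨s, hs, rfl⟩
        rw [mem_nonZeroDivisors_iff_ne_zero]
        exact (map_ne_zero_iff _ hinj).2 (nonZeroDivisors.ne_zero hs)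
      · intro a ha
        obtain ⟨s, hs, b, hb⟩ := exists_dvd (P := P) a (nonZeroDivisors.ne_zero ha)
        exact ⟨algebraMap P A s, ⟨s, mem_nonZeroDivisors_of_ne_zero hs, rfl⟩, b, hb⟩
    exact Module.Finite.of_isLocalization P A (nonZeroDivisors P)
  have _ : CharZero E := charZero_of_injective_algebraMap (IsFractionRing.injective P E)
  obtain ⟨α, hα⟩ := Field.exists_primitive_element E K
  obtain ⟨x, y, hy, rfl⟩ := IsFractionRing.div_surjective A α
  have hy0 : y ≠ 0 := nonZeroDivisors.ne_zero hy
  obtain ⟨s1, hs1, y', hy'⟩ := exists_dvd (P := P) y hy0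
  have hs1K : algebraMap P K s1 ≠ 0 := by
    rw [IsScalarTower.algebraMap_apply P A K]
    exact (map_ne_zero_iff _ hinjK).2 ((map_ne_zero_iff _ hinj).2 hs1)
  set θ : A := x * y' with hθ
  have hgen : IntermediateField.adjoin E {algebraMap A K θ} = ⊤ := by
    rw [eq_top_iff, ← hα, IntermediateField.adjoin_simple_le_iff]
    have h1 : algebraMap A K x / algebraMap A K y
        = (algebraMap E K (algebraMap P E s1))⁻¹ * algebraMap A K θ := by
      rw [← IsScalarTower.algebraMap_apply P E K]
      have hyK : algebraMap A K y ≠ 0 := (map_ne_zero_iff _ hinjK).2 hy0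
      have h2 : algebraMap P K s1 = algebraMap A K y * algebraMap A K y' := by
        rw [IsScalarTower.algebraMap_apply P A K, hy', map_mul]
      have hy'K : algebraMap A K y' ≠ 0 := by
        intro h
        rw [h, mul_zero] at h2
        exact hs1K h2
      rw [h2, hθ, map_mul]
      field_simp
    rw [h1]
    exact mul_mem (inv_mem (IntermediateField.algebraMap_mem _ _))
      (IntermediateField.mem_adjoin_simple_self _ _)
  refine ⟨θ, fun a => ?_⟩
  have hmem : algebraMap A K a ∈ IntermediateField.adjoin E {algebraMap A K θ} := by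
    rw [hgen]; exact IntermediateField.mem_top
  rw [← IntermediateField.mem_toSubalgebra,
    IntermediateField.adjoin_simple_toSubalgebra_of_isAlgebraic
      (Algebra.IsAlgebraic.isAlgebraic _), Algebra.adjoin_singleton_eq_range_aeval] at hmem
  obtain ⟨q, hq⟩ := hmem
  obtain ⟨b, hb, hbq⟩ := IsLocalization.integerNormalization_spec (nonZeroDivisors P) q
  refine ⟨b, IsLocalization.integerNormalization (nonZeroDivisors P) q,
    nonZeroDivisors.ne_zero hb, ?_⟩
  apply hinjK
  have h3 : aeval (algebraMap A K θ) (b • q) = algebraMap P K b * algebraMap A K a := by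
    rw [← algebraMap_smul E b q, map_smul, Algebra.smul_def, ← IsScalarTower.algebraMap_apply]
    congr 1
  rw [map_mul, ← IsScalarTower.algebraMap_apply P A K, ← h3, ← hbq, aeval_map_algebraMap,
    aeval_algebraMap_apply]

theorem exists_prim [CharZero P] [Module.Finite P A] :
    ∃ θ : A, ∀ a : A, ∃ (s : P) (Q : P[X]), s ≠ 0 ∧ algebraMap P A s * a = aeval θ Q := by
  let _ : Algebra (FractionRing P) (FractionRing A) := FractionRing.liftAlgebra P _
  have _ : IsScalarTower P (FractionRing P) (FractionRing A) :=
    FractionRing.isScalarTower_liftAlgebra P _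
  exact exists_prim_aux (FractionRing P) (FractionRing A)

/-- the derivative of the minimal polynomial does not vanish -/
theorem exists_disc [IsIntegrallyClosed P] [CharZero P] (θ : A) :
    ∃ (d : P) (w : A), d ≠ 0 ∧
      algebraMap P A d = aeval θ (derivative (minpoly P θ)) * w := by
  have hint : IsIntegral P θ := Algebra.IsIntegral.isIntegral θ
  have hne : aeval θ (derivative (minpoly P θ)) ≠ 0 := by
    intro h
    have h1 := minpoly.isIntegrallyClosed_dvd hint h
    have hpos := minpoly.natDegree_pos hint
    have h2 : derivative (minpoly P θ) ≠ 0 := by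
      intro h3
      have := derivative_eq_zero.1 h3
      omega
    have h3 := natDegree_le_of_dvd h1 h2
    have h4 := natDegree_derivative_lt (p := minpoly P θ) (by omega)
    omega
  obtain ⟨d, hd, w, hw⟩ := exists_dvd (P := P) _ hne
  exact ⟨d, w, hd, hw⟩

/-- homomorphisms with prescribed value at an element -/
theorem exists_hom_root [IsIntegrallyClosed P] {Ω : Type*} [Field Ω] [IsAlgClosed Ω] (θ : A)
    (φ : P →+* Ω) (z : Ω) (hz : (minpoly P θ).eval₂ φ z = 0) :
    ∃ h : A →+* Ω, (∀ b, h (algebraMap P A b) = φ b) ∧ h θ = z := by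
  have hint : IsIntegral P θ := Algebra.IsIntegral.isIntegral θ
  let e := minpoly.equivAdjoin hint
  let φ' : Algebra.adjoin P ({θ} : Set A) →+* Ω :=
    (AdjoinRoot.lift φ z hz).comp (e.symm : Algebra.adjoin P ({θ} : Set A) →+* _)
  have _ : Algebra.IsIntegral (Algebra.adjoin P ({θ} : Set A)) A :=
    Algebra.IsIntegral.tower_top P
  obtain ⟨h, hh⟩ := ext_hom (B := Algebra.adjoin P ({θ} : Set A)) (A := A) Subtype.val_injective φ'
  refine ⟨h, fun b => ?_, ?_⟩
  · have h1 : algebraMap P A b = algebraMap (Algebra.adjoin P ({θ} : Set A)) A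
        (algebraMap P (Algebra.adjoin P ({θ} : Set A)) b) := rfl
    rw [h1, hh]
    show (AdjoinRoot.lift φ z hz) (e.symm (algebraMap P _ b)) = φ b
    rw [AlgEquiv.commutes]
    exact AdjoinRoot.lift_of hz
  · have h1 : θ = algebraMap (Algebra.adjoin P ({θ} : Set A)) A
        (e (AdjoinRoot.root (minpoly P θ))) := by
      have : (e (AdjoinRoot.root (minpoly P θ)) : Algebra.adjoin P ({θ} : Set A))
          = ⟨θ, Algebra.self_mem_adjoin_singleton P θ⟩ := by
        apply Subtype.ext
        show ((AdjoinRoot.Minpoly.toAdjoin P θ (AdjoinRoot.root (minpoly P θ)) :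
          Algebra.adjoin P ({θ} : Set A)) : A) = θ
        rw [← AdjoinRoot.mk_X, AdjoinRoot.Minpoly.coe_toAdjoin_mk_X]
      rw [this]
      rfl
    conv_lhs => rw [h1]
    rw [hh]
    show (AdjoinRoot.lift φ z hz) (e.symm (e _)) = z
    rw [AlgEquiv.symm_apply_apply]
    exact AdjoinRoot.lift_root hz

end

end Pool.Agent.TH649.SF
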